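import Mathlib

/-!
# Benzels are tileable by left stones and bones whenever `I(a,b) ≤ 0`

Proof outline.
* `I(a,b) ≤ 0` forces `3 ∣ a + b` and `3 (a - b)² ≤ a + b` (`inv_nonpos`).  By the reflection
  `(i,j,k) ↦ (j,i,k)` we may take `d = b - a ≥ 0`; then `a = (3d² - d)/2 + 3t` with `t ≥ 0`.
* `ring`: for `3 ∣ a + b` and `3 ≤ a ≤ b ≤ 2a - 3` the benzel `B(a,b)` is the disjoint union of a
  translate of `B(a-3,b-3)`, one left stone and two families of bones.
* `pentagonal`: `B((3d²-d)/2, (3d²+d)/2)` is tiled by bones.  The region is cut into three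
  congruent parts `A, rot A, rot² A` by an explicit staircase `LE`, and every row of `A` splits
  into runs whose lengths are multiples of three.
-/

namespace Pool.Agent.Results.MP_cb668b_co.BenzelTilings

/-- Points of `ℤ³`. -/
abbrev V := ℤ × ℤ × ℤ

/-- The `(a,b)`-benzel. -/
def benzel (a b : ℤ) : Set V :=
  {c | c.1 + c.2.1 + c.2.2 = 1 ∧
    -(a - 1) ≤ c.2.1 - c.1 ∧ c.2.1 - c.1 ≤ b - 1 ∧
    -(a - 1) ≤ c.2.2 - c.2.1 ∧ c.2.2 - c.2.1 ≤ b - 1 ∧
    -(a - 1) ≤ c.1 - c.2.2 ∧ c.1 - c.2.2 ≤ b - 1}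

/-- The left stone `{q - e₁, q - e₂, q - e₃}`. -/
def leftStone (q : V) : Set V := {q - (1, 0, 0), q - (0, 1, 0), q - (0, 0, 1)}

/-- The bone `{c, c + d, c + 2d}`. -/
def bone (c d : V) : Set V := {c, c + d, c + d + d}

/-- The allowed tiles: left stones, and bones of the three kinds. -/
def IsTile (t : Set V) : Prop :=
  (∃ q : V, q.1 + q.2.1 + q.2.2 = 2 ∧ t = leftStone q) ∨
  (∃ c d : V, c.1 + c.2.1 + c.2.2 = 1 ∧
    (d = (1, -1, 0) ∨ d = (0, 1, -1) ∨ d = (-1, 0, 1)) ∧ t = bone c d)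

/-- `T` is a partition of the region `S` into left stones and bones. -/
def IsTiling (T : Set (Set V)) (S : Set V) : Prop :=
  (∀ t ∈ T, IsTile t ∧ t ⊆ S) ∧ ∀ c ∈ S, ∃! t, t ∈ T ∧ c ∈ t

/-- The quantity `I(a,b)` exactly as in the problem. -/
def inv (a b : ℤ) : ℤ :=
  if (a + b) % 3 = 0 then (3 * a ^ 2 - 6 * a * b + 3 * b ^ 2 - a - b) / 2
  else if (a + b) % 3 = 1 then (-a ^ 2 + 4 * a * b - b ^ 2 - a - b + 2) / 2
  else (3 * a ^ 2 - 6 * a * b + 3 * b ^ 2 + a + b - 2) / 2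

/-- `S` has a tiling by left stones and bones. -/
def Tileable (S : Set V) : Prop := ∃ T, IsTiling T S

lemma tileable_empty : Tileable ∅ := by
  refine ⟨∅, ?_, ?_⟩
  · intro t ht; exact absurd ht (Set.notMem_empty t)
  · intro c hc; exact absurd hc (Set.notMem_empty c)

lemma tileable_union {S₁ S₂ : Set V} (h : ∀ c ∈ S₁, c ∉ S₂) (h₁ : Tileable S₁)
    (h₂ : Tileable S₂) : Tileable (S₁ ∪ S₂) := by
  obtain ⟨T₁, hT₁, hu₁⟩ := h₁
  obtain ⟨T₂, hT₂, hu₂⟩ := h₂
  refine ⟨T₁ ∪ T₂, ?_, ?_⟩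
  · rintro t (ht | ht)
    · exact ⟨(hT₁ t ht).1, (hT₁ t ht).2.trans Set.subset_union_left⟩
    · exact ⟨(hT₂ t ht).1, (hT₂ t ht).2.trans Set.subset_union_right⟩
  · rintro c (hc | hc)
    · obtain ⟨t, ⟨ht, hct⟩, hun⟩ := hu₁ c hc
      refine ⟨t, ⟨Or.inl ht, hct⟩, ?_⟩
      rintro t' ⟨ht' | ht', hct'⟩
      · exact hun t' ⟨ht', hct'⟩
      · exact absurd ((hT₂ t' ht').2 hct') (h c hc)
    · obtain ⟨t, ⟨ht, hct⟩, hun⟩ := hu₂ c hc
      refine ⟨t, ⟨Or.inr ht, hct⟩, ?_⟩
      rintro t' ⟨ht' | ht', hct'⟩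
      · exact absurd hc (h c ((hT₁ t' ht').2 hct'))
      · exact hun t' ⟨ht', hct'⟩

/-- Transport of tilings along a bijection preserving tiles. -/
lemma tileable_image {S : Set V} (e : V ≃ V) (he : ∀ t, IsTile t → IsTile (e '' t))
    (h : Tileable S) : Tileable (e '' S) := by
  obtain ⟨T, hT, hu⟩ := h
  refine ⟨(fun t => e '' t) '' T, ?_, ?_⟩
  · rintro _ ⟨t, ht, rfl⟩
    exact ⟨he t (hT t ht).1, Set.image_mono (hT t ht).2⟩
  · rintro _ ⟨c, hc, rfl⟩
    obtain ⟨t, ⟨ht, hct⟩, hun⟩ := hu c hc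
    refine ⟨e '' t, ⟨⟨t, ht, rfl⟩, ⟨c, hct, rfl⟩⟩, ?_⟩
    rintro _ ⟨⟨t', ht', rfl⟩, hct'⟩
    have : c ∈ t' := by
      obtain ⟨c', hc', hcc⟩ := hct'
      rwa [← e.injective hcc]
    rw [hun t' ⟨ht', this⟩]

/-- Bones in one direction. -/
lemma tileable_bones {S B : Set V} (d : V)
    (hd : d = (1, -1, 0) ∨ d = (0, 1, -1) ∨ d = (-1, 0, 1))
    (h1 : ∀ c ∈ B, c.1 + c.2.1 + c.2.2 = 1 ∧ c ∈ S ∧ c + d ∈ S ∧ c + d + d ∈ S)
    (h2 : ∀ c ∈ S, (c ∈ B ∧ c - d ∉ B ∧ c - d - d ∉ B) ∨ (c ∉ B ∧ c - d ∈ B ∧ c - d - d ∉ B) ∨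
      (c ∉ B ∧ c - d ∉ B ∧ c - d - d ∈ B)) : Tileable S := by
  refine ⟨{t | ∃ c ∈ B, t = bone c d}, ?_, ?_⟩
  · rintro t ⟨c, hc, rfl⟩
    refine ⟨Or.inr ⟨c, d, (h1 c hc).1, hd, rfl⟩, ?_⟩
    rintro x (rfl | rfl | rfl)
    · exact (h1 _ hc).2.1
    · exact (h1 _ hc).2.2.1
    · exact (h1 _ hc).2.2.2
  · intro c hc
    have key : ∀ c' ∈ B, c ∈ bone c' d → c' = c ∨ c' = c - d ∨ c' = c - d - d := by
      rintro c' - (h | h | h)
      · exact Or.inl h.symm
      · exact Or.inr (Or.inl (by rw [h]; abel))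
      · exact Or.inr (Or.inr (by rw [h]; abel))
    rcases h2 c hc with ⟨ha, hb, hcc⟩ | ⟨ha, hb, hcc⟩ | ⟨ha, hb, hcc⟩
    · refine ⟨bone c d, ⟨⟨c, ha, rfl⟩, Or.inl rfl⟩, ?_⟩
      rintro t ⟨⟨c', hc', rfl⟩, hct⟩
      rcases key c' hc' hct with h | h | h
      · rw [h]
      · exact absurd (h ▸ hc') hb
      · exact absurd (h ▸ hc') hcc
    · refine ⟨bone (c - d) d, ⟨⟨c - d, hb, rfl⟩, Or.inr (Or.inl (by abel))⟩, ?_⟩
      rintro t ⟨⟨c', hc', rfl⟩, hct⟩
      rcases key c' hc' hct with h | h | h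
      · exact absurd (h ▸ hc') ha
      · rw [h]
      · exact absurd (h ▸ hc') hcc
    · refine ⟨bone (c - d - d) d, ⟨⟨c - d - d, hcc, rfl⟩, Or.inr (Or.inr (by simp))⟩, ?_⟩
      rintro t ⟨⟨c', hc', rfl⟩, hct⟩
      rcases key c' hc' hct with h | h | h
      · exact absurd (h ▸ hc') ha
      · exact absurd (h ▸ hc') hb
      · rw [h]

/-- The rotation `(i,j,k) ↦ (k,i,j)`. -/
def rot : V ≃ V where
  toFun c := (c.2.2, c.1, c.2.1)
  invFun c := (c.2.1, c.2.2, c.1)
  left_inv := fun _ => rfl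
  right_inv := fun _ => rfl

/-- The reflection `(i,j,k) ↦ (j,i,k)`. -/
def swp : V ≃ V where
  toFun c := (c.2.1, c.1, c.2.2)
  invFun c := (c.2.1, c.1, c.2.2)
  left_inv := fun _ => rfl
  right_inv := fun _ => rfl

lemma rot_tile (t : Set V) (ht : IsTile t) : IsTile (rot '' t) := by
  rcases ht with ⟨⟨q1, q2, q3⟩, hq, rfl⟩ | ⟨⟨c1, c2, c3⟩, d, hc, hd, rfl⟩
  · left
    refine ⟨(q3, q1, q2), by simp only at hq ⊢; omega, ?_⟩
    simp only [leftStone, Set.image_insert_eq, Set.image_singleton, rot, Equiv.coe_fn_mk,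
      Prod.mk_sub_mk, sub_zero]
    ext x
    simp only [Set.mem_insert_iff, Set.mem_singleton_iff]
    tauto
  · right
    simp only at hc
    rcases hd with rfl | rfl | rfl
    · exact ⟨(c3, c1, c2), (0, 1, -1), by simp only; omega, Or.inr (Or.inl rfl), by
        simp [bone, Set.image_insert_eq, Set.image_singleton, rot]⟩
    · exact ⟨(c3, c1, c2), (-1, 0, 1), by simp only; omega, Or.inr (Or.inr rfl), by
        simp [bone, Set.image_insert_eq, Set.image_singleton, rot]⟩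
    · exact ⟨(c3, c1, c2), (1, -1, 0), by simp only; omega, Or.inl rfl, by
        simp [bone, Set.image_insert_eq, Set.image_singleton, rot]⟩

lemma swp_tile (t : Set V) (ht : IsTile t) : IsTile (swp '' t) := by
  rcases ht with ⟨⟨q1, q2, q3⟩, hq, rfl⟩ | ⟨⟨c1, c2, c3⟩, d, hc, hd, rfl⟩
  · left
    refine ⟨(q2, q1, q3), by simp only at hq ⊢; omega, ?_⟩
    simp only [leftStone, Set.image_insert_eq, Set.image_singleton, swp, Equiv.coe_fn_mk,
      Prod.mk_sub_mk, sub_zero]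
    ext x
    simp only [Set.mem_insert_iff, Set.mem_singleton_iff]
    tauto
  · right
    simp only at hc
    rcases hd with rfl | rfl | rfl
    · refine ⟨(c2 - 2, c1 + 2, c3), (1, -1, 0), by simp only; omega, Or.inl rfl, ?_⟩
      simp only [bone, Set.image_insert_eq, Set.image_singleton, swp, Equiv.coe_fn_mk,
        Prod.mk_add_mk]
      ext ⟨x, y, z⟩
      simp only [Set.mem_insert_iff, Set.mem_singleton_iff, Prod.mk.injEq]
      omega
    · refine ⟨(c2 + 2, c1, c3 - 2), (-1, 0, 1), by simp only; omega, Or.inr (Or.inr rfl), ?_⟩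
      simp only [bone, Set.image_insert_eq, Set.image_singleton, swp, Equiv.coe_fn_mk,
        Prod.mk_add_mk]
      ext ⟨x, y, z⟩
      simp only [Set.mem_insert_iff, Set.mem_singleton_iff, Prod.mk.injEq]
      omega
    · refine ⟨(c2, c1 - 2, c3 + 2), (0, 1, -1), by simp only; omega, Or.inr (Or.inl rfl), ?_⟩
      simp only [bone, Set.image_insert_eq, Set.image_singleton, swp, Equiv.coe_fn_mk,
        Prod.mk_add_mk]
      ext ⟨x, y, z⟩
      simp only [Set.mem_insert_iff, Set.mem_singleton_iff, Prod.mk.injEq]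
      omega

lemma add_tile (v : V) (hv : v.1 + v.2.1 + v.2.2 = 0) (t : Set V) (ht : IsTile t) :
    IsTile (Equiv.addRight v '' t) := by
  rcases ht with ⟨q, hq, rfl⟩ | ⟨c, d, hc, hd, rfl⟩
  · left
    refine ⟨q + v, by simp only [Prod.fst_add, Prod.snd_add]; omega, ?_⟩
    simp only [leftStone, Set.image_insert_eq, Set.image_singleton, Equiv.coe_addRight]
    simp only [add_sub_right_comm]
  · right
    refine ⟨c + v, d, by simp only [Prod.fst_add, Prod.snd_add]; omega, hd, ?_⟩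
    simp only [bone, Set.image_insert_eq, Set.image_singleton, Equiv.coe_addRight]
    simp only [add_right_comm _ d v]


lemma mem_benzel {a b i j k : ℤ} : ((i, j, k) : V) ∈ benzel a b ↔ (i + j + k = 1 ∧
    -(a - 1) ≤ j - i ∧ j - i ≤ b - 1 ∧ -(a - 1) ≤ k - j ∧ k - j ≤ b - 1 ∧
    -(a - 1) ≤ i - k ∧ i - k ≤ b - 1) := Iff.rfl


/-- A left stone is tileable. -/
lemma tileable_stone (q : V) (hq : q.1 + q.2.1 + q.2.2 = 2) : Tileable (leftStone q) := by
  refine ⟨{leftStone q}, ?_, ?_⟩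
  · rintro t rfl
    exact ⟨Or.inl ⟨q, hq, rfl⟩, le_rfl⟩
  · intro c hc
    refine ⟨leftStone q, ⟨rfl, hc⟩, ?_⟩
    rintro t ⟨ht, -⟩
    exact ht

lemma mem_shift {a b i j k : ℤ} : ((i, j, k) : V) ∈ Equiv.addRight ((1, 1, -2) : V) '' benzel a b ↔
    ((i - 1, j - 1, k + 2) : V) ∈ benzel a b := by
  constructor
  · rintro ⟨⟨x, y, z⟩, h, h'⟩
    simp only [Equiv.coe_addRight, Prod.mk_add_mk, Prod.mk.injEq] at h'
    simp only [mem_benzel] at h ⊢
    omega
  · intro h
    refine ⟨_, h, ?_⟩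
    simp only [Equiv.coe_addRight, Prod.mk_add_mk, Prod.mk.injEq]
    omega

lemma mem_stone {q1 q2 q3 i j k : ℤ} : ((i, j, k) : V) ∈ leftStone (q1, q2, q3) ↔
    (i = q1 - 1 ∧ j = q2 ∧ k = q3) ∨ (i = q1 ∧ j = q2 - 1 ∧ k = q3) ∨
    (i = q1 ∧ j = q2 ∧ k = q3 - 1) := by
  simp only [leftStone, Prod.mk_sub_mk, Set.mem_insert_iff, Set.mem_singleton_iff, Prod.mk.injEq,
    sub_zero]

/-- First family of bones of the ring. -/
lemma ringC (a b n : ℤ) (h : a + b = 3 * n) (h1 : 3 ≤ a) (h2 : a ≤ b) (h3 : b ≤ 2 * a - 3) :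
    Tileable {c : V | c ∈ benzel a b ∧ a - 2 * n + 2 ≤ c.2.1 ∧
      (c.1 - 3, c.2.1, c.2.2 + 3) ∉ benzel a b} := by
  apply tileable_bones (-1, 0, 1) (Or.inr (Or.inr rfl))
    (B := {c : V | c ∈ benzel a b ∧ a - 2 * n + 2 ≤ c.2.1 ∧
      (c.1 - 3, c.2.1, c.2.2 + 3) ∉ benzel a b ∧ (c.1 - 2, c.2.1, c.2.2 + 2) ∈ benzel a b})
  · rintro ⟨i, j, k⟩ ⟨h4, h5, h6, h7⟩
    simp only [mem_benzel, Set.mem_ofPred_eq, Prod.mk_add_mk] at *
    omega
  · rintro ⟨i, j, k⟩ ⟨h4, h5, h6⟩
    simp only [mem_benzel, Set.mem_ofPred_eq, Prod.mk_sub_mk] at *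
    omega

/-- Second family of bones of the ring. -/
lemma ringB (a b n : ℤ) (h : a + b = 3 * n) (h1 : 3 ≤ a) (h2 : a ≤ b) (h3 : b ≤ 2 * a - 3) :
    Tileable {c : V | c ∈ benzel a b ∧ n - a + 3 ≤ c.1 ∧
      (c.1, c.2.1 - 3, c.2.2 + 3) ∉ benzel a b} := by
  apply tileable_bones (0, 1, -1) (Or.inr (Or.inl rfl))
    (B := {c : V | c ∈ benzel a b ∧ n - a + 3 ≤ c.1 ∧
      (c.1, c.2.1 - 1, c.2.2 + 1) ∉ benzel a b})
  · rintro ⟨i, j, k⟩ ⟨h4, h5, h6⟩
    simp only [mem_benzel, Set.mem_ofPred_eq, Prod.mk_add_mk] at *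
    omega
  · rintro ⟨i, j, k⟩ ⟨h4, h5, h6⟩
    simp only [mem_benzel, Set.mem_ofPred_eq, Prod.mk_sub_mk] at *
    omega

/-- The ring between two consecutive benzels. -/
lemma ring (a b n : ℤ) (h : a + b = 3 * n) (h1 : 3 ≤ a) (h2 : a ≤ b) (h3 : b ≤ 2 * a - 3)
    (hs : Tileable (benzel (a - 3) (b - 3))) : Tileable (benzel a b) := by
  have hs' := tileable_image (Equiv.addRight ((1, 1, -2) : V)) (add_tile _ (by norm_num)) hs
  have hL := tileable_stone (n - a + 2, a - 2 * n + 1, n - 1) (by simp only; ring)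
  have hC := ringC a b n h h1 h2 h3
  have hB := ringB a b n h h1 h2 h3
  have h12 := tileable_union ?_ hs' hL
  · have h34 := tileable_union ?_ hC hB
    · have h1234 := tileable_union ?_ h12 h34
      · convert h1234 using 1
        ext ⟨i, j, k⟩
        simp only [Set.mem_union, mem_shift, mem_stone, Set.mem_ofPred_eq, mem_benzel]
        omega
      · rintro ⟨i, j, k⟩
        simp only [Set.mem_union, mem_shift, mem_stone, Set.mem_ofPred_eq, mem_benzel]
        omega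
    · rintro ⟨i, j, k⟩
      simp only [Set.mem_ofPred_eq, mem_benzel]
      omega
  · rintro ⟨i, j, k⟩
    simp only [mem_shift, mem_stone, mem_benzel]
    omega

/-- Triangular numbers. -/
def tri (m : ℤ) : ℤ := m * (m + 1) / 2

lemma two_tri (m : ℤ) : 2 * tri m = m * (m + 1) := by
  obtain ⟨r, hr⟩ := Int.even_mul_succ_self m
  unfold tri
  rw [hr]
  omega

lemma tri_sub (m : ℤ) : tri (m - 2) = tri m - 2 * m + 1 := by
  have h1 := two_tri m
  have h2 := two_tri (m - 2)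
  nlinarith

lemma tri_nonneg (m : ℤ) : 0 ≤ tri m := by
  have h1 := two_tri m
  rcases le_or_gt 0 m with h | h
  · nlinarith
  · have : m + 1 ≤ 0 := by omega
    nlinarith [mul_nonneg_of_nonpos_of_nonpos h.le this]

lemma tri_mono {m m' : ℤ} (h0 : 0 ≤ m) (h : m ≤ m') : tri m ≤ tri m' := by
  have h1 := two_tri m
  have h2 := two_tri m'
  nlinarith

/-- The height of the staircase at `v` in the block `[tri (m-2), tri m)`. -/
def gv (m v : ℤ) : ℤ := if m = 1 then 0 else tri (m - 2) - 2 * min ((tri m - 1 - v) / 2) (m - 2)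

/-- `v` lies in the block number `m` (`m ≤ d`, `m ≡ d` mod `2`). -/
def Blk (d m v : ℤ) : Prop := 1 ≤ m ∧ m ≤ d ∧ (d - m) % 2 = 0 ∧ tri (m - 2) ≤ v ∧ v < tri m

/-- `u` is at most the height of the staircase at `v` (the height is infinite from `tri d` on,
and minus infinity for negative `v`). -/
def LE (d u v : ℤ) : Prop := tri d ≤ v ∨ ∃ m, Blk d m v ∧ u ≤ gv m v

lemma blk_exists_aux (n : ℕ) : ∀ d v : ℤ, d ≤ n → 1 ≤ d → 0 ≤ v → v < tri d → ∃ m, Blk d m v := by
  induction n with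
  | zero => intro d v h1 h2; push_cast at h1; omega
  | succ n ih =>
    intro d v h1 h2 h3 h4
    rcases le_or_gt (tri (d - 2)) v with h5 | h5
    · exact ⟨d, h2, le_rfl, by simp, h5, h4⟩
    · by_cases h6 : 3 ≤ d
      · obtain ⟨m, hm1, hm2, hm3, hm4, hm5⟩ := ih (d - 2) v (by push_cast at h1; omega)
          (by omega) h3 h5
        exact ⟨m, hm1, by omega, by omega, hm4, hm5⟩
      · have h7 := tri_sub d
        have h8 : d = 1 ∨ d = 2 := by omega
        have h9 := two_tri d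
        rcases h8 with rfl | rfl <;> norm_num at h7 h9 h5 <;> omega

lemma blk_exists {d v : ℤ} (h2 : 1 ≤ d) (h3 : 0 ≤ v) (h4 : v < tri d) : ∃ m, Blk d m v :=
  blk_exists_aux d.toNat d v (by omega) h2 h3 h4

lemma blk_unique {d m m' v : ℤ} (h : Blk d m v) (h' : Blk d m' v) : m = m' := by
  obtain ⟨h1, h2, h3, h4, h5⟩ := h
  obtain ⟨h1', h2', h3', h4', h5'⟩ := h'
  by_contra hne
  rcases lt_or_gt_of_ne hne with hlt | hlt
  · have := tri_mono (m := m) (m' := m' - 2) (by omega) (by omega)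
    omega
  · have := tri_mono (m := m') (m' := m - 2) (by omega) (by omega)
    omega

lemma LE_iff {d m u v : ℤ} (hb : Blk d m v) : LE d u v ↔ u ≤ gv m v := by
  constructor
  · rintro (h | ⟨m', hb', h⟩)
    · obtain ⟨h1, h2, h3, h4, h5⟩ := hb
      have := tri_mono (m := m) (m' := d) (by omega) h2
      omega
    · rw [blk_unique hb hb']; exact h
  · intro h; exact Or.inr ⟨m, hb, h⟩

lemma not_LE_neg {d u v : ℤ} (hv : v < 0) : ¬ LE d u v := by
  rintro (h | ⟨m', hb', h⟩)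
  · have := tri_nonneg d; omega
  · obtain ⟨h1, h2, h3, h4, h5⟩ := hb'
    have := tri_nonneg (m' - 2); omega

/-- The value `gv` for the block `m`. -/
lemma gv_facts {m v : ℤ} (h1 : 1 ≤ m) (h4 : tri (m - 2) ≤ v) (h5 : v < tri m) :
    gv m v ≤ v ∧ gv m v ≤ tri (m - 2) ∧ -1 ≤ gv m v ∧ 0 ≤ gv m v + v := by
  have h6 := tri_sub m
  have h7 := two_tri m
  have h8 := tri_nonneg (m - 2)
  unfold gv
  split_ifs with h
  · subst h; norm_num at *; omega
  · have e1 : -1 ≤ tri (m - 2) - 2 * (m - 2) := by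
      have : 0 ≤ (m - 3) * (m - 4) := by
        rcases le_or_gt m 3 with h9 | h9
        · nlinarith
        · nlinarith
      nlinarith
    have e2 : 0 ≤ 2 * tri (m - 2) - 2 * (m - 2) := by
      have : 0 ≤ (m - 2) * (m - 3) := by
        rcases le_or_gt m 2 with h9 | h9
        · nlinarith
        · nlinarith
      nlinarith
    omega

lemma LE_le {d u v : ℤ} (h : LE d u v) : tri d ≤ v ∨ (u ≤ v ∧ v < tri d) := by
  rcases h with h | ⟨m, ⟨h1, h2, h3, h4, h5⟩, h⟩
  · exact Or.inl h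
  · right
    have := gv_facts h1 h4 h5
    have := tri_mono (m := m) (m' := d) (by omega) h2
    omega

lemma not_LE {d u v : ℤ} (hd : 1 ≤ d) (h : ¬ LE d u v) : v < 0 ∨ (0 ≤ u ∧ 1 ≤ u + v) := by
  rcases lt_or_ge v 0 with h0 | h0
  · exact Or.inl h0
  · right
    have h1 : v < tri d := by
      by_contra h2
      exact h (Or.inl (by omega))
    obtain ⟨m, hm⟩ := blk_exists hd h0 h1
    rw [LE_iff hm] at h
    obtain ⟨h1, h2, h3, h4, h5⟩ := hm
    have := gv_facts h1 h4 h5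
    omega


/-- A set of integers that splits into triples of consecutive integers. -/
def Good (R : Set ℤ) : Prop := ∃ B : Set ℤ, (∀ i ∈ B, i ∈ R ∧ i + 1 ∈ R ∧ i + 2 ∈ R) ∧
  ∀ i ∈ R, (i ∈ B ∧ i - 1 ∉ B ∧ i - 2 ∉ B) ∨ (i ∉ B ∧ i - 1 ∈ B ∧ i - 2 ∉ B) ∨
    (i ∉ B ∧ i - 1 ∉ B ∧ i - 2 ∈ B)

lemma good_interval {R : Set ℤ} (l r : ℤ) (h : ∀ i, i ∈ R ↔ (l ≤ i ∧ i ≤ r))
    (h3 : (r + 1 - l) % 3 = 0) : Good R := by
  refine ⟨{i | l ≤ i ∧ i ≤ r ∧ (i - l) % 3 = 0}, ?_, ?_⟩
  · rintro i ⟨h4, h5, h6⟩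
    rw [h, h, h]; omega
  · intro i hi
    rw [h] at hi
    simp only [Set.mem_ofPred_eq]
    omega

lemma good_two {R : Set ℤ} (l r s : ℤ)
    (h : ∀ i, i ∈ R ↔ ((l ≤ i ∧ i ≤ r) ∨ (s ≤ i ∧ i ≤ s + 2)))
    (h3 : (r + 1 - l) % 3 = 0 ∨ r < l) (h4 : r < s) : Good R := by
  refine ⟨{i | (l ≤ i ∧ i ≤ r ∧ (i - l) % 3 = 0) ∨ i = s}, ?_, ?_⟩
  · rintro i (⟨h4, h5, h6⟩ | h4)
    · rw [h, h, h]; omega
    · rw [h, h, h]; omega
  · intro i hi
    rw [h] at hi
    simp only [Set.mem_ofPred_eq]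
    omega

lemma good_empty {R : Set ℤ} (h : ∀ i, i ∉ R) : Good R :=
  ⟨∅, fun i hi => absurd hi (Set.notMem_empty i), fun i hi => absurd hi (h i)⟩

lemma tileable_rows {S : Set V} (hS : ∀ c ∈ S, c.1 + c.2.1 + c.2.2 = 1)
    (h : ∀ k : ℤ, Good {i | ((i, 1 - i - k, k) : V) ∈ S}) : Tileable S := by
  choose B hB1 hB2 using h
  apply tileable_bones (1, -1, 0) (Or.inl rfl)
    (B := {c : V | c.1 + c.2.1 + c.2.2 = 1 ∧ c.1 ∈ B c.2.2})
  · rintro ⟨i, j, k⟩ ⟨h1, h2⟩
    simp only at h1 h2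
    obtain ⟨h3, h4, h5⟩ := hB1 k i h2
    simp only [Set.mem_ofPred_eq] at h3 h4 h5
    have e1 : j = 1 - i - k := by omega
    refine ⟨h1, ?_, ?_, ?_⟩
    · rw [e1]; exact h3
    · convert h4 using 1
      simp only [Prod.mk_add_mk, Prod.mk.injEq, add_zero, true_and, and_true]; omega
    · convert h5 using 1
      simp only [Prod.mk_add_mk, Prod.mk.injEq, add_zero, and_true]; omega
  · rintro ⟨i, j, k⟩ hc
    have h1 := hS _ hc
    simp only at h1
    have e1 : j = 1 - i - k := by omega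
    subst e1
    have h2 := hB2 k i hc
    have e2 : i - 1 - 1 = i - 2 := by ring
    simp only [Set.mem_ofPred_eq, Prod.mk_sub_mk, sub_zero, e2]
    have e3 : i + (1 - i - k) + k = 1 := by ring
    have e4 : i - 1 + (1 - i - k - -1) + k = 1 := by ring
    have e5 : i - 2 + (1 - i - k - -1 - -1) + k = 1 := by ring
    simp only [e3, e4, e5, true_and]
    exact h2

/-- The region `A`. -/
def regA (d : ℤ) : Set V := {c | c ∈ benzel (3 * tri d - 2 * d) (3 * tri d - d) ∧
  LE d c.2.1 c.2.2 ∧ ¬ LE d c.2.2 c.1}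

/-- comparison with a lower block. -/
lemma LE_lower {d m k i : ℤ} (hm : Blk d m k) (hi : i < tri (m - 2)) : ¬ LE d k i := by
  obtain ⟨h1, h2, h3, h4, h5⟩ := hm
  intro h
  have h6 := tri_mono (m := m) (m' := d) (by omega) h2
  have h7 := LE_le h
  omega

/-- comparison with a higher block. -/
lemma LE_higher {d m k i : ℤ} (hm : Blk d m k) (hi : tri (m + 2) ≤ i) : LE d k i := by
  obtain ⟨h1, h2, h3, h4, h5⟩ := hm
  rcases le_or_gt (tri d) i with h6 | h6
  · exact Or.inl h6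
  · have h0 := tri_nonneg (m + 2)
    obtain ⟨m', hm'⟩ := blk_exists (d := d) (v := i) (by omega) (by omega) h6
    rw [LE_iff hm']
    obtain ⟨h1', h2', h3', h4', h5'⟩ := hm'
    have h7 : m + 4 ≤ m' := by
      by_contra h8
      have h9 : m' ≤ m + 2 := by omega
      have := tri_mono (m := m') (m' := m + 2) (by omega) h9
      omega
    have e1 := two_tri m
    have e2 := two_tri m'
    have e3 := tri_sub m'
    have e4 : tri m - 1 ≤ tri (m' - 2) - 2 * (m' - 2) := by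
      have : 0 ≤ (m' - 4 - m) * (m' + m - 1) := mul_nonneg (by omega) (by omega)
      nlinarith
    unfold gv
    rw [if_neg (by omega)]
    omega

/-- comparison with the next block. -/
lemma LE_next {d m k i : ℤ} (hm : Blk d m k) (hmd : m + 2 ≤ d) (hi : tri m ≤ i)
    (hi' : i < tri (m + 2)) : LE d k i ↔ tri m + 2 * m + 1 - 2 * ((tri m - k) / 2) ≤ i := by
  obtain ⟨h1, h2, h3, h4, h5⟩ := hm
  have e0 : m + 2 - 2 = m := by ring
  have hm' : Blk d (m + 2) i := ⟨by omega, hmd, by omega, by rw [e0]; exact hi, hi'⟩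
  rw [LE_iff hm']
  unfold gv
  rw [if_neg (by omega), e0]
  have e1 := tri_sub (m + 2)
  rw [e0] at e1
  have e2 := tri_sub m
  omega

/-- comparison with the same block. -/
lemma LE_same {d m k i : ℤ} (hm : Blk d m k) (hi : tri (m - 2) ≤ i)
    (hi' : i < tri m) : LE d k i ↔ (k = tri (m - 2) ∧ (m ≤ 2 ∨ tri m - 2 ≤ i)) := by
  obtain ⟨h1, h2, h3, h4, h5⟩ := hm
  have hm' : Blk d m i := ⟨h1, h2, h3, hi, hi'⟩
  rw [LE_iff hm']
  unfold gv
  have e2 := tri_sub m
  split_ifs with h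
  · subst h
    have e3 := two_tri 1
    norm_num at *
    omega
  · omega


lemma LE_mid {d m k i : ℤ} (hm : Blk d m k) (hmd : m + 2 ≤ d) :
    LE d k i ↔ (tri (m - 2) ≤ i ∧ i < tri m ∧ k = tri (m - 2) ∧ (m ≤ 2 ∨ tri m - 2 ≤ i)) ∨
      (tri m ≤ i ∧ tri m + 2 * m + 1 - 2 * ((tri m - k) / 2) ≤ i) := by
  have h5 := hm.2.2.2.2
  have h0 := tri_sub m
  have h6 := tri_sub (m + 2)
  have e0 : m + 2 - 2 = m := by ring
  rw [e0] at h6
  have h1 := hm.1
  rcases lt_or_ge i (tri (m - 2)) with h | h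
  · have := LE_lower hm h
    constructor
    · intro h'; exact absurd h' this
    · intro h'; omega
  rcases lt_or_ge i (tri m) with h' | h'
  · rw [LE_same hm h h']; omega
  rcases lt_or_ge i (tri (m + 2)) with h'' | h''
  · rw [LE_next hm hmd h' h'']; omega
  · have := LE_higher hm h''
    constructor
    · intro _; right; omega
    · intro _; exact this

lemma LE_top {d k i : ℤ} (hm : Blk d d k) :
    LE d k i ↔ (tri (d - 2) ≤ i ∧ i < tri d ∧ k = tri (d - 2) ∧ (d ≤ 2 ∨ tri d - 2 ≤ i)) ∨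
      tri d ≤ i := by
  have h0 := tri_sub d
  have h1 := hm.1
  rcases lt_or_ge i (tri (d - 2)) with h | h
  · have := LE_lower hm h
    constructor
    · intro h'; exact absurd h' this
    · intro h'; omega
  rcases lt_or_ge i (tri d) with h' | h'
  · rw [LE_same hm h h']; omega
  · constructor
    · intro _; right; omega
    · intro _; exact Or.inl h'

lemma rowA_good (d k : ℤ) (hd : 2 ≤ d) : Good {i | ((i, 1 - i - k, k) : V) ∈ regA d} := by
  have hD := two_tri d
  have hD1 : d + 1 ≤ tri d := by nlinarith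
  have hD2 := tri_sub d
  have hD3 := tri_nonneg (d - 2)
  rcases lt_or_ge k 0 with h0 | h0
  · apply good_empty
    rintro i ⟨h1, h2, h3⟩
    exact not_LE_neg h0 h2
  rcases le_or_gt (tri d) k with h1 | h1
  · apply good_interval (k - (3 * tri d - 2 * d) + 1) ((3 * tri d - d) - 2 * k)
    · intro i
      have e1 : LE d (1 - i - k) k := Or.inl h1
      have e2 : LE d k i ↔ tri d ≤ i := by
        constructor
        · intro h
          have := LE_le h
          omega
        · intro h; exact Or.inl h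
      simp only [Set.mem_ofPred_eq, regA, mem_benzel, e1, e2, true_and]
      omega
    · omega
  obtain ⟨m, hm⟩ := blk_exists (d := d) (by omega) h0 h1
  have hgv := gv_facts hm.1 hm.2.2.2.1 hm.2.2.2.2
  have hs := two_tri m
  have hs1 := tri_sub m
  have hs2 := tri_nonneg (m - 2)
  have hm1 := hm.1
  have hs3 : m ≤ 2 → tri (m - 2) = 0 := by
    intro h
    have : m = 1 ∨ m = 2 := by omega
    rcases this with rfl | rfl
    · norm_num at hs hs1 ⊢; omega
    · norm_num at hs hs1 ⊢; omega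
  have hm2 := hm.2.1
  have hm3 := hm.2.2.1
  have hm4 := hm.2.2.2.1
  have hm5 := hm.2.2.2.2
  have hLE : ∀ i, LE d (1 - i - k) k ↔ 1 - i - k ≤ gv m k := fun i => LE_iff hm
  rcases eq_or_lt_of_le hm2 with hmd | hmd
  · -- top block
    subst hmd
    have hgv' : gv m k = tri (m - 2) - 2 * min ((tri m - 1 - k) / 2) (m - 2) := by
      unfold gv; rw [if_neg (by omega)]
    by_cases hk : k = tri (m - 2)
    · apply good_interval (1 - k - gv m k) (tri m - 3)
      · intro i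
        simp only [Set.mem_ofPred_eq, regA, mem_benzel, hLE, LE_top hm]
        omega
      · omega
    · apply good_interval (1 - k - gv m k) ((3 * tri m - 2 * m - k) / 2)
      · intro i
        simp only [Set.mem_ofPred_eq, regA, mem_benzel, hLE, LE_top hm]
        omega
      · omega
  · have hmd' : m + 2 ≤ d := by omega
    have hx0 : 0 ≤ d - m - 2 := by omega
    have f1 : tri m + 2 * m + 3 ≤ tri d := by
      have := mul_nonneg hx0 (show 0 ≤ d + m + 3 by omega)
      nlinarith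
    have f2 : 3 * tri m + 4 * m + 5 ≤ 3 * tri d - 2 * d := by
      have := mul_nonneg hx0 (show 0 ≤ 3 * d + 3 * m + 5 by omega)
      nlinarith
    have f3 : 3 * tri m + 5 * m + 7 ≤ 3 * tri d - d := by
      have := mul_nonneg hx0 (show 0 ≤ 3 * d + 3 * m + 7 by omega)
      nlinarith
    have hgv' : (m = 1 ∧ gv m k = 0) ∨
        (2 ≤ m ∧ gv m k = tri (m - 2) - 2 * min ((tri m - 1 - k) / 2) (m - 2)) := by
      rcases eq_or_ne m 1 with h | h
      · left; exact ⟨h, by unfold gv; rw [if_pos h]⟩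
      · right; exact ⟨by omega, by unfold gv; rw [if_neg h]⟩
    by_cases hk : k = tri (m - 2)
    · apply good_two (1 - k - gv m k) (tri m - 3) (tri m)
      · intro i
        simp only [Set.mem_ofPred_eq, regA, mem_benzel, hLE, LE_mid hm hmd']
        rcases hgv' with ⟨hg1, hg2⟩ | ⟨hg1, hg2⟩
        · omega
        · omega
      · omega
      · omega
    · apply good_interval (1 - k - gv m k) (tri m + 2 * m - 2 * ((tri m - k) / 2))
      · intro i
        simp only [Set.mem_ofPred_eq, regA, mem_benzel, hLE, LE_mid hm hmd']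
        rcases hgv' with ⟨hg1, hg2⟩ | ⟨hg1, hg2⟩
        · omega
        · omega
      · have e1 : (tri m - k) / 2 + (tri m - 1 - k) / 2 = tri m - k - 1 := by omega
        have e2 : tri m + 2 * m - 2 * ((tri m - k) / 2) + 1 - (1 - k - gv m k) = 3 * (k + 1) := by
          rcases hgv' with ⟨hg1, hg2⟩ | ⟨hg1, hg2⟩
          · omega
          · rw [hg2, min_eq_left (by omega)]; omega
        rw [e2]; omega


/-- The region `A` is tileable. -/
lemma tileable_A (d : ℤ) (hd : 2 ≤ d) : Tileable (regA d) := by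
  apply tileable_rows
  · rintro ⟨i, j, k⟩ ⟨h, -, -⟩
    exact h.1
  · intro k
    exact rowA_good d k hd

lemma mem_rot {S : Set V} {i j k : ℤ} : ((i, j, k) : V) ∈ rot '' S ↔ ((j, k, i) : V) ∈ S := by
  constructor
  · rintro ⟨⟨x, y, z⟩, h, h'⟩
    simp only [rot, Equiv.coe_fn_mk, Prod.mk.injEq] at h'
    obtain ⟨rfl, rfl, rfl⟩ := h'
    exact h
  · intro h
    exact ⟨_, h, rfl⟩

lemma mem_swp {S : Set V} {i j k : ℤ} : ((i, j, k) : V) ∈ swp '' S ↔ ((j, i, k) : V) ∈ S := by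
  constructor
  · rintro ⟨⟨x, y, z⟩, h, h'⟩
    simp only [swp, Equiv.coe_fn_mk, Prod.mk.injEq] at h'
    obtain ⟨rfl, rfl, rfl⟩ := h'
    exact h
  · intro h
    exact ⟨_, h, rfl⟩

lemma mem_regA {d i j k : ℤ} : ((i, j, k) : V) ∈ regA d ↔
    ((i, j, k) : V) ∈ benzel (3 * tri d - 2 * d) (3 * tri d - d) ∧ LE d j k ∧ ¬ LE d k i := Iff.rfl

lemma benzel_rot {a b i j k : ℤ} : ((j, k, i) : V) ∈ benzel a b ↔ ((i, j, k) : V) ∈ benzel a b := by
  simp only [mem_benzel]
  omega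

/-- Every benzel whose invariant vanishes is tileable by bones. -/
lemma pentagonal (d : ℤ) (hd : 2 ≤ d) : Tileable (benzel (3 * tri d - 2 * d) (3 * tri d - d)) := by
  have hA := tileable_A d hd
  have hB := tileable_image rot rot_tile hA
  have hC := tileable_image rot rot_tile hB
  have hD : 1 ≤ tri d := by have := two_tri d; nlinarith
  have hAB := tileable_union ?_ hA hB
  · have hABC := tileable_union ?_ hAB hC
    · convert hABC using 1
      ext ⟨i, j, k⟩
      simp only [Set.mem_union, mem_rot, mem_regA]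
      rw [benzel_rot (i := i) (j := j) (k := k), ← benzel_rot (i := k) (j := i) (k := j)]
      constructor
      · intro h
        have h1 : i + j + k = 1 := h.1
        by_cases p1 : LE d j k
        · by_cases p2 : LE d k i
          · by_cases p3 : LE d i j
            · exfalso
              have := LE_le p1
              have := LE_le p2
              have := LE_le p3
              omega
            · tauto
          · tauto
        · by_cases p2 : LE d k i
          · by_cases p3 : LE d i j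
            · tauto
            · tauto
          · by_cases p3 : LE d i j
            · tauto
            · exfalso
              have := not_LE (by omega) p1
              have := not_LE (by omega) p2
              have := not_LE (by omega) p3
              omega
      · tauto
    · rintro ⟨i, j, k⟩
      simp only [Set.mem_union, mem_rot, mem_regA]
      tauto
  · rintro ⟨i, j, k⟩
    simp only [mem_rot, mem_regA]
    tauto

lemma tileable_benzel_aux (d : ℤ) (hd : 0 ≤ d) (t : ℕ) :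
    Tileable (benzel (3 * tri d - 2 * d + 3 * t) (3 * tri d - d + 3 * t)) := by
  induction t with
  | zero =>
    simp only [Nat.cast_zero, mul_zero, add_zero]
    rcases lt_or_ge d 2 with h | h
    · have h' : d = 0 ∨ d = 1 := by omega
      convert tileable_empty
      rw [Set.eq_empty_iff_forall_notMem]
      rintro ⟨i, j, k⟩
      have h1 := two_tri d
      rw [mem_benzel]
      rcases h' with rfl | rfl
      · omega
      · omega
    · exact pentagonal d h
  | succ t ih =>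
    have hD := two_tri d
    have hD1 : d ≤ tri d := by
      have h0 : 0 ≤ d * (d - 1) := by
        rcases eq_or_lt_of_le hd with h | h
        · rw [← h]; norm_num
        · exact mul_nonneg hd (by omega)
      nlinarith
    push_cast
    apply ring _ _ (2 * tri d - d + 2 * (t + 1))
    · ring
    · omega
    · omega
    · omega
    · convert ih using 2 <;> ring

lemma benzel_swp (a b : ℤ) : swp '' benzel b a = benzel a b := by
  ext ⟨i, j, k⟩
  rw [mem_swp, mem_benzel, mem_benzel]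
  omega

/-- `I(a,b) ≤ 0` forces `a + b` to be divisible by `3` and `3 (a - b)² ≤ a + b`. -/
lemma inv_nonpos {a b : ℤ} (h1 : 2 ≤ a) (h2 : a ≤ 2 * b) (h3 : 2 ≤ b) (h4 : b ≤ 2 * a)
    (h : inv a b ≤ 0) : (a + b) % 3 = 0 ∧ 3 * (a - b) ^ 2 ≤ a + b := by
  unfold inv at h
  split_ifs at h with h5 h6
  · refine ⟨h5, ?_⟩
    have e1 : 3 * a ^ 2 - 6 * a * b + 3 * b ^ 2 - a - b = 3 * (a - b) ^ 2 - (a + b) := by ring
    rw [e1] at h
    obtain ⟨r, hr⟩ := Int.even_mul_succ_self (a - b)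
    have e2 : (a - b) * (a - b + 1) = (a - b) ^ 2 + (a - b) := by ring
    omega
  · exfalso
    have e1 : 2 ≤ -a ^ 2 + 4 * a * b - b ^ 2 - a - b + 2 := by
      have := mul_nonneg (show 0 ≤ 2 * b - a by omega) (show 0 ≤ 2 * a - b by omega)
      nlinarith [mul_nonneg (show 0 ≤ a - 2 by omega) (show 0 ≤ b - 2 by omega)]
    omega
  · exfalso
    have e1 : 2 ≤ 3 * a ^ 2 - 6 * a * b + 3 * b ^ 2 + a + b - 2 := by
      nlinarith [sq_nonneg (a - b)]
    omega

lemma tileable_of_le {a b : ℤ} (hab : a ≤ b) (h3 : (a + b) % 3 = 0)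
    (h : 3 * (a - b) ^ 2 ≤ a + b) : Tileable (benzel a b) := by
  obtain ⟨d, rfl⟩ : ∃ d, b = a + d := ⟨b - a, by ring⟩
  have hd := two_tri d
  have e1 : 3 * tri d - 2 * d ≤ a := by nlinarith
  have e2 : (a - (3 * tri d - 2 * d)) % 3 = 0 := by omega
  have key := tileable_benzel_aux d (by omega) ((a - (3 * tri d - 2 * d)) / 3).toNat
  convert key using 2 <;> omega

theorem result : ∀ a b : ℤ, 2 ≤ a → a ≤ 2 * b → 2 ≤ b → b ≤ 2 * a → inv a b ≤ 0 →
    ∃ T : Set (Set V), IsTiling T (benzel a b) := by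
  intro a b h1 h2 h3 h4 h
  obtain ⟨h5, h6⟩ := inv_nonpos h1 h2 h3 h4 h
  rcases le_total a b with hab | hab
  · exact tileable_of_le hab h5 h6
  · have := tileable_image swp swp_tile
      (tileable_of_le (a := b) (b := a) hab (by omega) (by nlinarith))
    rwa [benzel_swp] at this


end Pool.Agent.Results.MP_cb668b_co.BenzelTilings
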